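import Mathlib

/-!
# Large subsets without bad triangles: the threshold is `1`, and it is not attained

`P(δ)` fails for every `0 < δ < 1` and `P(1)` holds (with `λ = 1/4`).
-/

set_option autoImplicit false

open Finset

namespace Pool.Agent.Results.MP_8cfbc5_co.ThresholdOne

/-- The real Hilbert space `ℓ²`. -/
abbrev H := lp (fun _ : ℕ => ℝ) 2

/-- The distance of two points of `ℓ²`. -/
noncomputable def di (x y : H) : ℝ := dist x y

/-- Two of the three distances are at most `1` and the remaining one is at least `1 + δ`. -/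
def Bad (δ : ℝ) (x y z : H) : Prop :=
  (di x y ≤ 1 ∧ di y z ≤ 1 ∧ 1 + δ ≤ di x z) ∨
  (di x y ≤ 1 ∧ di x z ≤ 1 ∧ 1 + δ ≤ di y z) ∨
  (di y z ≤ 1 ∧ di x z ≤ 1 ∧ 1 + δ ≤ di x y)

/-- Property `P(δ)`. -/
def PP (δ : ℝ) : Prop :=
  ∃ lam : ℝ, 0 < lam ∧ ∀ (n : ℕ), 1 ≤ n → ∀ x : Fin n → H,
    ∃ I : Finset (Fin n), lam * n ≤ (I.card : ℝ) ∧
      ∀ i ∈ I, ∀ j ∈ I, ∀ k ∈ I, i ≠ j → j ≠ k → i ≠ k → ¬ Bad δ (x i) (x j) (x k)

/-! ### `P(1)` holds -/

theorem midpoint_identity (x y z : H) (h1 : dist x y ≤ 1) (h2 : dist y z ≤ 1)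
    (h3 : 1 + 1 ≤ dist x z) : ‖x‖ ^ 2 + ‖z‖ ^ 2 - 2 * ‖y‖ ^ 2 = 2 := by
  rw [dist_eq_norm] at h1 h2 h3
  have p1 := parallelogram_law_with_norm ℝ (x - y) (y - z)
  have e1 : (x - y) + (y - z) = x - z := by abel
  have e2 : (x - y) - (y - z) = (x + z) - (2 : ℝ) • y := by
    rw [two_smul]; abel
  rw [e1, e2] at p1
  have n1 := norm_nonneg (x - y)
  have n2 := norm_nonneg (y - z)
  have n3 := norm_nonneg (x - z)
  have n4 := norm_nonneg ((x + z) - (2 : ℝ) • y)
  have h4 : ‖(x + z) - (2 : ℝ) • y‖ * ‖(x + z) - (2 : ℝ) • y‖ ≤ 0 := by nlinarith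
  have h5 : ‖(x + z) - (2 : ℝ) • y‖ = 0 := by nlinarith
  have h6 : x + z = (2 : ℝ) • y := by
    rw [norm_eq_zero, sub_eq_zero] at h5; exact h5
  have h7 : ‖x - z‖ * ‖x - z‖ = 4 := by
    rw [h5] at p1
    nlinarith
  have p2 := parallelogram_law_with_norm ℝ x z
  rw [h6, norm_smul] at p2
  simp only [Real.norm_ofNat] at p2
  nlinarith

/-- The colour of a point. -/
noncomputable def col (x : H) : ℤ := ⌊‖x‖ ^ 2⌋ % 4

theorem no_bad_aux (x y z : H) (hxy : col x = col y) (hyz : col y = col z)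
    (h1 : dist x y ≤ 1) (h2 : dist y z ≤ 1) (h3 : 1 + 1 ≤ dist x z) : False := by
  have h := midpoint_identity x y z h1 h2 h3
  unfold col at hxy hyz
  have a1 := Int.floor_le (‖x‖ ^ 2)
  have a2 := Int.lt_floor_add_one (‖x‖ ^ 2)
  have b1 := Int.floor_le (‖y‖ ^ 2)
  have b2 := Int.lt_floor_add_one (‖y‖ ^ 2)
  have c1 := Int.floor_le (‖z‖ ^ 2)
  have c2 := Int.lt_floor_add_one (‖z‖ ^ 2)
  have l1 : ((⌊‖x‖ ^ 2⌋ + ⌊‖z‖ ^ 2⌋ - 2 * ⌊‖y‖ ^ 2⌋ : ℤ) : ℝ) < 4 := by push_cast; linarith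
  have l2 : (0 : ℝ) < ((⌊‖x‖ ^ 2⌋ + ⌊‖z‖ ^ 2⌋ - 2 * ⌊‖y‖ ^ 2⌋ : ℤ) : ℝ) := by
    push_cast; linarith
  have l3 : ⌊‖x‖ ^ 2⌋ + ⌊‖z‖ ^ 2⌋ - 2 * ⌊‖y‖ ^ 2⌋ < 4 := by exact_mod_cast l1
  have l4 : 0 < ⌊‖x‖ ^ 2⌋ + ⌊‖z‖ ^ 2⌋ - 2 * ⌊‖y‖ ^ 2⌋ := by exact_mod_cast l2
  omega

theorem no_bad (x y z : H) (hxy : col x = col y) (hyz : col y = col z) : ¬ Bad 1 x y z := by
  rintro (⟨h1, h2, h3⟩ | ⟨h1, h2, h3⟩ | ⟨h1, h2, h3⟩)
  · exact no_bad_aux x y z hxy hyz h1 h2 h3
  · exact no_bad_aux y x z hxy.symm (hxy.trans hyz) (by rw [dist_comm]; exact h1) h2 h3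
  · exact no_bad_aux x z y (hxy.trans hyz) hyz.symm h2 (by rw [dist_comm]; exact h1) h3

theorem PP_one : PP 1 := by
  classical
  refine ⟨1 / 4, by norm_num, fun n hn x => ?_⟩
  let c : Fin n → ℤ := fun i => col (x i)
  have hmaps : ∀ i ∈ (univ : Finset (Fin n)), c i ∈ Finset.Ico (0 : ℤ) 4 := by
    intro i _
    rw [Finset.mem_Ico]
    exact ⟨Int.emod_nonneg _ (by norm_num), Int.emod_lt_of_pos _ (by norm_num)⟩
  have hcard := card_eq_sum_card_fiberwise hmaps
  obtain ⟨t, -, ht⟩ : ∃ t ∈ Finset.Ico (0 : ℤ) 4,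
      n ≤ 4 * (univ.filter (fun i => c i = t)).card := by
    by_contra hcon
    push Not at hcon
    have h1 : ∑ t ∈ Finset.Ico (0 : ℤ) 4, 4 * (univ.filter (fun i => c i = t)).card <
        ∑ t ∈ Finset.Ico (0 : ℤ) 4, n := by
      apply sum_lt_sum_of_nonempty
      · exact ⟨0, by simp⟩
      · intro t ht
        exact hcon t ht
    rw [← mul_sum, ← hcard] at h1
    simp at h1
  refine ⟨univ.filter (fun i => c i = t), ?_, ?_⟩
  · have : (n : ℝ) ≤ 4 * ((univ.filter (fun i => c i = t)).card : ℝ) := by exact_mod_cast ht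
    linarith
  · intro i hi j hj k hk _ _ _
    rw [mem_filter] at hi hj hk
    exact no_bad _ _ _ (hi.2.trans hj.2.symm) (hj.2.trans hk.2.symm)

/-! ### Concentration on product spaces -/

section conc

variable {α : Type} [Fintype α] [Nonempty α] [DecidableEq α]

omit [Fintype α] [Nonempty α] in
theorem hamming_cons (N : ℕ) (a b : α) (x y : Fin N → α) :
    hammingDist (Fin.cons a x : Fin (N + 1) → α) (Fin.cons b y) =
      (if a ≠ b then 1 else 0) + hammingDist x y := by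
  unfold hammingDist
  rw [card_filter, card_filter, Fin.sum_univ_succ]
  simp

omit [Nonempty α] [DecidableEq α] in
theorem sum_cons (N : ℕ) (F : (Fin (N + 1) → α) → ℝ) :
    ∑ x, F x = ∑ y : Fin N → α, ∑ a : α, F (Fin.cons a y) := by
  rw [← (Fin.consEquiv (fun _ : Fin (N + 1) => α)).sum_comp, Fintype.sum_prod_type, sum_comm]
  rfl

theorem variance (N : ℕ) : ∀ f : (Fin N → α) → ℝ,
    (∀ x y, |f x - f y| ≤ (hammingDist x y : ℝ)) →
    ∃ μ : ℝ, ∑ x, (f x - μ) ^ 2 ≤ N * (Fintype.card α : ℝ) ^ N := by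
  induction N with
  | zero =>
    intro f _
    refine ⟨f (fun i => i.elim0), ?_⟩
    have : ∀ x : Fin 0 → α, f x = f (fun i => i.elim0) := by
      intro x
      congr 1
      funext i
      exact i.elim0
    simp [this]
  | succ N ih =>
    intro f hf
    have hc : (0 : ℝ) < Fintype.card α := by exact_mod_cast Fintype.card_pos
    set c : ℝ := (Fintype.card α : ℝ) with hcdef
    let g : (Fin N → α) → ℝ := fun y => (∑ a : α, f (Fin.cons a y)) / c
    have hg : ∀ x y, |g x - g y| ≤ (hammingDist x y : ℝ) := by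
      intro x y
      simp only [g]
      rw [← sub_div, ← sum_sub_distrib, abs_div, abs_of_pos hc, div_le_iff₀ hc]
      refine (abs_sum_le_sum_abs _ _).trans ?_
      calc ∑ a : α, |f (Fin.cons a x) - f (Fin.cons a y)| ≤ ∑ a : α, (hammingDist x y : ℝ) := by
            refine sum_le_sum fun a _ => ?_
            have := hf (Fin.cons a x) (Fin.cons a y)
            rw [hamming_cons] at this
            simpa using this
        _ = (hammingDist x y : ℝ) * c := by
            rw [sum_const, card_univ, nsmul_eq_mul, mul_comm]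
    obtain ⟨μ, hμ⟩ := ih g hg
    refine ⟨μ, ?_⟩
    rw [sum_cons]
    have hclose : ∀ y : Fin N → α, ∀ a : α, (f (Fin.cons a y) - g y) ^ 2 ≤ 1 := by
      intro y a
      have h1 : |f (Fin.cons a y) - g y| ≤ 1 := by
        have e : f (Fin.cons a y) - g y = (∑ b : α, (f (Fin.cons a y) - f (Fin.cons b y))) / c := by
          simp only [g]
          rw [sum_sub_distrib, sum_const, card_univ, nsmul_eq_mul, ← hcdef]
          field_simp
        rw [e, abs_div, abs_of_pos hc, div_le_iff₀ hc]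
        refine (abs_sum_le_sum_abs _ _).trans ?_
        calc ∑ b : α, |f (Fin.cons a y) - f (Fin.cons b y)| ≤ ∑ b : α, (1 : ℝ) := by
              refine sum_le_sum fun b _ => ?_
              have := hf (Fin.cons a y) (Fin.cons b y)
              rw [hamming_cons] at this
              refine this.trans ?_
              rw [hammingDist_self]
              by_cases hab : a = b <;> simp [hab]
          _ = 1 * c := by rw [sum_const, card_univ, nsmul_eq_mul, mul_comm]
      have := abs_le.1 h1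
      nlinarith
    have hzero : ∀ y : Fin N → α, ∑ a : α, (f (Fin.cons a y) - g y) = 0 := by
      intro y
      rw [sum_sub_distrib, sum_const, card_univ, nsmul_eq_mul]
      simp only [g]
      field_simp
      ring
    have hinner : ∀ y : Fin N → α, ∑ a : α, (f (Fin.cons a y) - μ) ^ 2 ≤
        c + c * (g y - μ) ^ 2 := by
      intro y
      have e : ∀ a : α, (f (Fin.cons a y) - μ) ^ 2 = (f (Fin.cons a y) - g y) ^ 2 +
          2 * (g y - μ) * (f (Fin.cons a y) - g y) + (g y - μ) ^ 2 := by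
        intro a; ring
      rw [sum_congr rfl (fun a _ => e a), sum_add_distrib, sum_add_distrib, ← mul_sum, hzero,
        sum_const, card_univ, nsmul_eq_mul]
      have h2 : ∑ a : α, (f (Fin.cons a y) - g y) ^ 2 ≤ ∑ a : α, (1 : ℝ) :=
        sum_le_sum fun a _ => hclose y a
      rw [sum_const, card_univ, nsmul_eq_mul, mul_one] at h2
      linarith
    refine (sum_le_sum fun y _ => hinner y).trans ?_
    rw [sum_add_distrib, ← mul_sum, sum_const, card_univ, Fintype.card_fun, Fintype.card_fin,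
      nsmul_eq_mul]
    push_cast
    rw [← hcdef, pow_succ]
    have := mul_le_mul_of_nonneg_left hμ hc.le
    nlinarith

theorem nbhd (lam ε : ℝ) (hl : 0 < lam) (hε : 0 < ε) : ∃ N₀ : ℕ, ∀ N ≥ N₀,
    ∀ I : Finset (Fin N → α), lam * (Fintype.card α : ℝ) ^ N ≤ I.card →
    3 * ((univ.filter (fun x : Fin N → α => ∀ y ∈ I, ε * N < (hammingDist x y : ℝ))).card : ℝ) <
      (Fintype.card α : ℝ) ^ N := by
  obtain ⟨N₀, hN₀⟩ := exists_nat_gt (max (4 / (lam * ε ^ 2)) (12 / ε ^ 2))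
  refine ⟨N₀, fun N hN I hI => ?_⟩
  have hc : (0 : ℝ) < Fintype.card α := by exact_mod_cast Fintype.card_pos
  have hV : (0 : ℝ) < (Fintype.card α : ℝ) ^ N := by positivity
  have hNR : (N₀ : ℝ) ≤ N := by exact_mod_cast hN
  have hN1 : 4 / (lam * ε ^ 2) < N := lt_of_lt_of_le (lt_of_le_of_lt (le_max_left _ _) hN₀) hNR
  have hN2 : 12 / ε ^ 2 < N := lt_of_lt_of_le (lt_of_le_of_lt (le_max_right _ _) hN₀) hNR
  have hNpos : (0 : ℝ) < N := lt_of_le_of_lt (by positivity) hN2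
  have hne : I.Nonempty := by
    rw [← card_pos]
    have : (0 : ℝ) < I.card := lt_of_lt_of_le (by positivity) hI
    exact_mod_cast this
  let f : (Fin N → α) → ℝ := fun x => ((I.inf' hne (fun y => hammingDist x y) : ℕ) : ℝ)
  have hle : ∀ x x', f x ≤ f x' + (hammingDist x x' : ℝ) := by
    intro x x'
    obtain ⟨y, hy, hy2⟩ := exists_mem_eq_inf' hne (fun y => hammingDist x' y)
    have h1 : I.inf' hne (fun y => hammingDist x y) ≤ hammingDist x y := inf'_le _ hy
    have h2 := hammingDist_triangle x x' y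
    simp only [f]
    rw [hy2]
    have h3 : I.inf' hne (fun y => hammingDist x y) ≤ hammingDist x' y + hammingDist x x' := by
      omega
    exact_mod_cast h3
  have hf : ∀ x x', |f x - f x'| ≤ (hammingDist x x' : ℝ) := by
    intro x x'
    rw [abs_le]
    have h1 := hle x x'
    have h2 := hle x' x
    rw [hammingDist_comm] at h2
    constructor <;> linarith
  obtain ⟨μ, hμ⟩ := variance N f hf
  have hf0 : ∀ x ∈ I, f x = 0 := by
    intro x hx
    have : I.inf' hne (fun y => hammingDist x y) ≤ hammingDist x x := inf'_le _ hx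
    rw [hammingDist_self] at this
    simp only [f]
    have h0 : I.inf' hne (fun y => hammingDist x y) = 0 := by omega
    rw [h0]; simp
  have h1 : (I.card : ℝ) * μ ^ 2 ≤ N * (Fintype.card α : ℝ) ^ N := by
    calc (I.card : ℝ) * μ ^ 2 = ∑ x ∈ I, (f x - μ) ^ 2 := by
          rw [sum_congr rfl (fun x hx => by rw [hf0 x hx, zero_sub, neg_sq]), sum_const,
            nsmul_eq_mul]
      _ ≤ ∑ x, (f x - μ) ^ 2 := sum_le_univ_sum_of_nonneg fun x => sq_nonneg _
      _ ≤ _ := hμ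
  have h2 : lam * μ ^ 2 ≤ N := by
    have h3 : lam * (Fintype.card α : ℝ) ^ N * μ ^ 2 ≤ N * (Fintype.card α : ℝ) ^ N :=
      (mul_le_mul_of_nonneg_right hI (sq_nonneg μ)).trans h1
    have h4 : (lam * μ ^ 2) * (Fintype.card α : ℝ) ^ N ≤ N * (Fintype.card α : ℝ) ^ N := by
      linarith
    exact le_of_mul_le_mul_right h4 hV
  -- hence `μ ≤ ε N / 2`
  have h3 : μ ≤ ε * N / 2 := by
    by_contra hcon
    push Not at hcon
    have h4 : (ε * N / 2) ^ 2 < μ ^ 2 := by
      apply pow_lt_pow_left₀ hcon (by positivity) (by norm_num)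
    have h5 : 4 < N * (lam * ε ^ 2) := by
      rwa [div_lt_iff₀ (by positivity)] at hN1
    have h6 : lam * (ε * N / 2) ^ 2 < N := lt_of_lt_of_le
      (mul_lt_mul_of_pos_left h4 hl) h2
    nlinarith
  set B := univ.filter (fun x : Fin N → α => ∀ y ∈ I, ε * N < (hammingDist x y : ℝ)) with hB
  have hfB : ∀ x ∈ B, (ε * N / 2) ^ 2 ≤ (f x - μ) ^ 2 := by
    intro x hx
    rw [hB, mem_filter] at hx
    obtain ⟨y, hy, hy2⟩ := exists_mem_eq_inf' hne (fun y => hammingDist x y)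
    have h4 : ε * N < f x := by
      simp only [f]
      rw [hy2]
      exact hx.2 y hy
    apply pow_le_pow_left₀ (by positivity)
    linarith
  have h5 : (B.card : ℝ) * (ε * N / 2) ^ 2 ≤ N * (Fintype.card α : ℝ) ^ N := by
    calc (B.card : ℝ) * (ε * N / 2) ^ 2 = ∑ x ∈ B, (ε * N / 2) ^ 2 := by
          rw [sum_const, nsmul_eq_mul]
      _ ≤ ∑ x ∈ B, (f x - μ) ^ 2 := sum_le_sum hfB
      _ ≤ ∑ x, (f x - μ) ^ 2 := sum_le_univ_sum_of_nonneg fun x => sq_nonneg _
      _ ≤ _ := hμ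
  have h6 : (B.card : ℝ) * (ε ^ 2 * N) ≤ 4 * (Fintype.card α : ℝ) ^ N := by
    have : ((B.card : ℝ) * (ε ^ 2 * N)) * N ≤ (4 * (Fintype.card α : ℝ) ^ N) * N := by
      nlinarith
    exact le_of_mul_le_mul_right this hNpos
  have h7 : 12 < N * ε ^ 2 := by rwa [div_lt_iff₀ (by positivity)] at hN2
  rcases eq_or_lt_of_le (Nat.cast_nonneg (α := ℝ) B.card) with h8 | h8
  · rw [← h8]; linarith
  · nlinarith

end conc

/-! ### The configuration -/

theorem exists_embed (N : ℕ) : ∃ T : (Fin N → ℂ) → H, ∀ v w : Fin N → ℂ,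
    dist (T v) (T w) ^ 2 = ∑ j, ‖v j - w j‖ ^ 2 := by
  classical
  -- real coordinates
  have key : ∀ d : ℕ, ∃ S : (Fin d → ℝ) → H, ∀ u u' : Fin d → ℝ,
      dist (S u) (S u') ^ 2 = ∑ i, (u i - u' i) ^ 2 := by
    intro d
    let ext : (Fin d → ℝ) → ℕ → ℝ := fun u i => if h : i < d then u ⟨i, h⟩ else 0
    refine ⟨fun u => ∑ i ∈ Finset.range d, lp.single 2 i (ext u i), fun u u' => ?_⟩
    rw [dist_eq_norm, ← sum_sub_distrib]
    have e1 : ∀ i ∈ Finset.range d, (lp.single 2 i (ext u i) : H) - lp.single 2 i (ext u' i) =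
        lp.single 2 i (ext u i - ext u' i) := by
      intro i _
      rw [lp.single_sub]
    rw [sum_congr rfl e1]
    have h2 := lp.norm_sum_single (E := fun _ : ℕ => ℝ) (p := 2) (by norm_num)
      (fun i => ext u i - ext u' i) (Finset.range d)
    have h3 : (2 : ENNReal).toReal = 2 := by norm_num
    rw [h3] at h2
    simp only [Real.rpow_two, Real.norm_eq_abs, sq_abs] at h2
    rw [h2, ← Fin.sum_univ_eq_sum_range (fun i => (ext u i - ext u' i) ^ 2) d]
    refine sum_congr rfl fun i _ => ?_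
    simp only [ext, i.isLt, dif_pos]
  obtain ⟨S, hS⟩ := key (N + N)
  refine ⟨fun v => S (fun i => Sum.elim (fun j => (v j).re) (fun j => (v j).im)
    (finSumFinEquiv.symm i)), fun v w => ?_⟩
  rw [hS]
  rw [← finSumFinEquiv.sum_comp]
  rw [Fintype.sum_sum_type, ← sum_add_distrib]
  refine sum_congr rfl fun j _ => ?_
  simp only [Equiv.symm_apply_apply, Sum.elim_inl, Sum.elim_inr]
  rw [← Complex.normSq_eq_norm_sq, Complex.normSq_apply]
  simp only [Complex.sub_re, Complex.sub_im]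
  ring

theorem char_one (m : ℕ) : (ZMod.stdAddChar (1 : ZMod (m + 2)) : ℂ) =
    Complex.exp (2 * Real.pi * Complex.I / ((m + 2 : ℕ) : ℂ)) := by
  have h := ZMod.stdAddChar_coe (N := m + 2) 1
  push_cast at h ⊢
  rw [h]
  simp

theorem exists_m (δ : ℝ) (hδ : δ < 1) : ∃ m : ℕ,
    1 + δ < ‖(ZMod.stdAddChar (1 : ZMod (m + 2)) : ℂ) + 1‖ := by
  have ht : Filter.Tendsto (fun m : ℕ => ‖Complex.exp (2 * Real.pi * Complex.I /
      ((m + 2 : ℕ) : ℂ)) + 1‖) Filter.atTop (nhds ‖Complex.exp 0 + 1‖) := by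
    refine Filter.Tendsto.norm ?_
    refine Filter.Tendsto.add_const _ ?_
    refine (Complex.continuous_exp.tendsto 0).comp ?_
    have h1 : Filter.Tendsto (fun n : ℕ => (2 * Real.pi * Complex.I) / (n : ℂ)) Filter.atTop
        (nhds 0) := tendsto_const_div_atTop_nhds_zero_nat _
    exact h1.comp (Filter.tendsto_add_atTop_nat 2)
  have h2 : ‖Complex.exp 0 + 1‖ = 2 := by
    rw [Complex.exp_zero]; norm_num
  rw [h2] at ht
  obtain ⟨m, hm⟩ := (ht.eventually (lt_mem_nhds (show 1 + δ < 2 by linarith))).exists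
  refine ⟨m, ?_⟩
  rw [char_one]
  exact hm

theorem char_ne_one (m : ℕ) : (ZMod.stdAddChar (1 : ZMod (m + 2)) : ℂ) ≠ 1 := by
  intro h
  have h1 : (ZMod.stdAddChar (1 : ZMod (m + 2)) : ℂ) = ZMod.stdAddChar (0 : ZMod (m + 2)) := by
    rw [h, AddChar.map_zero_eq_one]
  have h2 := ZMod.injective_stdAddChar h1
  have h3 : (1 : ZMod (m + 2)) ≠ 0 := by
    have : Fact (1 < m + 2) := ⟨by omega⟩
    exact one_ne_zero
  exact h3 h2

theorem norm_char (m : ℕ) (a : ZMod (m + 2)) : ‖(ZMod.stdAddChar a : ℂ)‖ = 1 := by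
  have : NeZero (m + 2) := ⟨by omega⟩
  exact AddChar.norm_apply _ _

theorem fails (δ : ℝ) (hδ0 : 0 < δ) (hδ : δ < 1) : ¬ PP δ := by
  classical
  rintro ⟨lam, hl, hP⟩
  obtain ⟨m, hq⟩ := exists_m δ hδ
  set e : ZMod (m + 2) → ℂ := fun a => ZMod.stdAddChar a with he
  have hadd : ∀ a b, e (a + b) = e a * e b := fun a b => AddChar.map_add_eq_mul _ _ _
  have hnorm : ∀ a, ‖e a‖ = 1 := fun a => norm_char m a
  set s := ‖e 1 - 1‖ with hs
  set q := ‖e 1 + 1‖ with hqdef
  have hspos : 0 < s := by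
    rw [hs, norm_pos_iff, sub_ne_zero]
    exact char_ne_one m
  have hq' : 1 + δ < q := hq
  have hq2 : q ≤ 2 := by
    rw [hqdef]
    refine (norm_add_le _ _).trans ?_
    rw [hnorm, norm_one]; norm_num
  set η := (q - 1 - δ) / (q + 1) with hη
  have hq1 : 0 < q + 1 := by linarith
  have hηpos : 0 < η := by rw [hη]; apply div_pos <;> linarith
  have hη1 : η < 1 := by rw [hη, div_lt_one hq1]; linarith
  have hηq : (1 - η) * q - η = 1 + δ := by
    rw [hη]; field_simp; ring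
  set R := (1 - η) / s with hR
  have hRpos : 0 < R := by rw [hR]; apply div_pos (by linarith) hspos
  have hRs : R * s = 1 - η := by rw [hR]; field_simp
  set ε := (η / (4 * R)) ^ 2 with hε
  have hεpos : 0 < ε := by positivity
  obtain ⟨N₀, hN₀⟩ := nbhd (α := ZMod (m + 2)) lam ε hl hεpos
  set N := max N₀ 1 with hN
  have hNpos : (0 : ℝ) < N := by
    have : 1 ≤ N := le_max_right _ _
    exact_mod_cast this
  obtain ⟨T, hT⟩ := exists_embed N
  let φ : (Fin N → ZMod (m + 2)) → H := fun x => T (fun j => ((R / Real.sqrt N : ℝ) : ℂ) * e (x j))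
  have hdist : ∀ x y, dist (φ x) (φ y) ^ 2 = R ^ 2 / N * ∑ j, ‖e (x j) - e (y j)‖ ^ 2 := by
    intro x y
    simp only [φ]
    rw [hT, mul_sum]
    refine sum_congr rfl fun j _ => ?_
    rw [← mul_sub, norm_mul, mul_pow, Complex.norm_real, Real.norm_eq_abs, sq_abs, div_pow,
      Real.sq_sqrt hNpos.le]
  have hstep : ∀ x : Fin N → ZMod (m + 2), dist (φ x) (φ (x + 1)) = R * s := by
    intro x
    have h1 := hdist x (x + 1)
    have h2 : ∀ j, ‖e (x j) - e ((x + 1) j)‖ ^ 2 = s ^ 2 := by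
      intro j
      have : e (x j) - e ((x + 1) j) = - (e (x j) * (e 1 - 1)) := by
        rw [Pi.add_apply, Pi.one_apply, hadd]; ring
      rw [this, norm_neg, norm_mul, hnorm, one_mul]
    rw [sum_congr rfl (fun j _ => h2 j), sum_const, card_univ, Fintype.card_fin, nsmul_eq_mul] at h1
    have h3 : dist (φ x) (φ (x + 1)) ^ 2 = (R * s) ^ 2 := by
      rw [h1]; field_simp
    exact (pow_left_inj₀ dist_nonneg (by positivity) (by norm_num)).1 h3
  have hstep2 : ∀ x : Fin N → ZMod (m + 2), dist (φ x) (φ (x + 1 + 1)) = R * s * q := by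
    intro x
    have h1 := hdist x (x + 1 + 1)
    have h2 : ∀ j, ‖e (x j) - e ((x + 1 + 1) j)‖ ^ 2 = (s * q) ^ 2 := by
      intro j
      have : e (x j) - e ((x + 1 + 1) j) = - (e (x j) * ((e 1 - 1) * (e 1 + 1))) := by
        rw [Pi.add_apply, Pi.add_apply, Pi.one_apply, hadd, hadd]; ring
      rw [this, norm_neg, norm_mul, norm_mul, hnorm, one_mul]
    rw [sum_congr rfl (fun j _ => h2 j), sum_const, card_univ, Fintype.card_fin, nsmul_eq_mul] at h1
    have hq0 : 0 ≤ q := norm_nonneg _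
    have h3 : dist (φ x) (φ (x + 1 + 1)) ^ 2 = (R * s * q) ^ 2 := by
      rw [h1]; field_simp
    exact (pow_left_inj₀ dist_nonneg (by positivity) (by norm_num)).1 h3
  have hclose : ∀ x y : Fin N → ZMod (m + 2), (hammingDist x y : ℝ) ≤ ε * N →
      dist (φ x) (φ y) ≤ η / 2 := by
    intro x y hxy
    have h1 := hdist x y
    have h2 : ∑ j, ‖e (x j) - e (y j)‖ ^ 2 ≤ 4 * (hammingDist x y : ℝ) := by
      unfold hammingDist
      rw [card_filter]
      push_cast
      rw [mul_sum]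
      refine sum_le_sum fun j _ => ?_
      by_cases h : x j = y j
      · simp [h]
      · have h3 : ‖e (x j) - e (y j)‖ ≤ 2 := by
          refine (norm_sub_le _ _).trans ?_
          rw [hnorm, hnorm]; norm_num
        have h4 := norm_nonneg (e (x j) - e (y j))
        simp only [ne_eq, h, not_false_eq_true, if_true]
        nlinarith
    have h5 : dist (φ x) (φ y) ^ 2 ≤ (η / 2) ^ 2 := by
      rw [h1]
      calc R ^ 2 / N * ∑ j, ‖e (x j) - e (y j)‖ ^ 2 ≤ R ^ 2 / N * (4 * (ε * N)) := by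
            apply mul_le_mul_of_nonneg_left _ (by positivity)
            linarith
        _ = (η / 2) ^ 2 := by
            rw [hε]; field_simp; ring
    exact (pow_le_pow_iff_left₀ dist_nonneg (by positivity) (by norm_num)).1 h5
  -- index the points
  have hcardV : Fintype.card (Fin N → ZMod (m + 2)) = (m + 2) ^ N := by
    rw [Fintype.card_fun, Fintype.card_fin, ZMod.card]
  let σ : Fin ((m + 2) ^ N) ≃ (Fin N → ZMod (m + 2)) :=
    (Fintype.equivFinOfCardEq hcardV).symm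
  obtain ⟨I, hI, hno⟩ := hP ((m + 2) ^ N) (Nat.one_le_pow _ _ (by omega)) (fun i => φ (σ i))
  set I' : Finset (Fin N → ZMod (m + 2)) := I.map σ.toEmbedding with hI'
  have hI'card : lam * (Fintype.card (ZMod (m + 2)) : ℝ) ^ N ≤ I'.card := by
    rw [hI', card_map, ZMod.card]
    push_cast at hI ⊢
    exact hI
  have hB := hN₀ N (le_max_left _ _) I' hI'card
  set B := univ.filter (fun x : Fin N → ZMod (m + 2) =>
    ∀ y ∈ I', ε * N < (hammingDist x y : ℝ)) with hBdef
  -- translates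
  have htrans : ∀ t : Fin N → ZMod (m + 2),
      (univ.filter (fun x : Fin N → ZMod (m + 2) => x + t ∈ B)).card ≤ B.card := by
    intro t
    refine card_le_card_of_injOn (fun x => x + t) ?_ ?_
    · intro x hx
      rw [mem_coe, mem_filter] at hx
      exact hx.2
    · intro x _ y _ hxy
      exact add_right_cancel hxy
  have hexx : ∃ x : Fin N → ZMod (m + 2), x ∉ B ∧ x + 1 ∉ B ∧ x + (1 + 1) ∉ B := by
    by_contra hcon
    push Not at hcon
    have hcov : (univ : Finset (Fin N → ZMod (m + 2))) ⊆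
        (B ∪ univ.filter (fun x => x + 1 ∈ B)) ∪ univ.filter (fun x => x + (1 + 1) ∈ B) := by
      intro x _
      rw [mem_union, mem_union]
      by_cases h1 : x ∈ B
      · exact Or.inl (Or.inl h1)
      · by_cases h2 : x + 1 ∈ B
        · exact Or.inl (Or.inr (mem_filter.2 ⟨mem_univ _, h2⟩))
        · exact Or.inr (mem_filter.2 ⟨mem_univ _, hcon x h1 h2⟩)
    have h1 := card_le_card hcov
    have h2 := card_union_le (B ∪ univ.filter (fun x : Fin N → ZMod (m + 2) => x + 1 ∈ B))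
      (univ.filter (fun x : Fin N → ZMod (m + 2) => x + (1 + 1) ∈ B))
    have h3 := card_union_le B (univ.filter (fun x : Fin N → ZMod (m + 2) => x + 1 ∈ B))
    have h4 := htrans 1
    have h5 := htrans (1 + 1)
    have h6 : (univ : Finset (Fin N → ZMod (m + 2))).card ≤ 3 * B.card := by omega
    rw [card_univ, hcardV] at h6
    have h7 : (((m + 2) ^ N : ℕ) : ℝ) ≤ 3 * (B.card : ℝ) := by exact_mod_cast h6
    rw [ZMod.card] at hB
    push_cast at h7 hB
    linarith
  obtain ⟨x, hx0, hx1, hx2⟩ := hexx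
  have hnear : ∀ z, z ∉ B → ∃ i ∈ I, dist (φ z) (φ (σ i)) ≤ η / 2 := by
    intro z hz
    rw [hBdef, mem_filter] at hz
    push Not at hz
    obtain ⟨y, hy, hy2⟩ := hz (mem_univ _)
    rw [hI', mem_map] at hy
    obtain ⟨i, hi, rfl⟩ := hy
    exact ⟨i, hi, hclose _ _ hy2⟩
  obtain ⟨i, hi, hi2⟩ := hnear x hx0
  obtain ⟨j, hj, hj2⟩ := hnear (x + 1) hx1
  obtain ⟨k, hk, hk2⟩ := hnear (x + (1 + 1)) hx2
  rw [← add_assoc] at hk2
  have dij : dist (φ (σ i)) (φ (σ j)) ≤ 1 := by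
    have h1 := dist_triangle4 (φ (σ i)) (φ x) (φ (x + 1)) (φ (σ j))
    rw [dist_comm (φ (σ i)) (φ x), hstep, hRs] at h1
    linarith
  have djk : dist (φ (σ j)) (φ (σ k)) ≤ 1 := by
    have h1 := dist_triangle4 (φ (σ j)) (φ (x + 1)) (φ (x + 1 + 1)) (φ (σ k))
    rw [dist_comm (φ (σ j)) (φ (x + 1)), hstep, hRs] at h1
    linarith
  have dik : 1 + δ ≤ dist (φ (σ i)) (φ (σ k)) := by
    have h1 := dist_triangle4 (φ x) (φ (σ i)) (φ (σ k)) (φ (x + 1 + 1))
    rw [hstep2, hRs, dist_comm (φ (σ k)) (φ (x + 1 + 1))] at h1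
    linarith
  have hij : i ≠ j := by
    rintro rfl; linarith
  have hjk : j ≠ k := by
    rintro rfl; linarith
  have hik : i ≠ k := by
    rintro rfl
    rw [dist_self] at dik
    linarith
  exact hno i hi j hj k hk hij hjk hik (Or.inl ⟨dij, djk, dik⟩)

/-- Main result: `P(δ)` fails for every `0 < δ < 1`, `P(1)` holds, `δ* = 1`, and the supremum is
not attained. -/
theorem result : (∀ δ : ℝ, 0 < δ → δ < 1 → ¬ PP δ) ∧ PP 1 ∧
    sSup {δ : ℝ | 0 < δ ∧ ¬ PP δ} = 1 ∧ ∀ δ : ℝ, 0 < δ → (PP δ ↔ 1 ≤ δ) := by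
  have hmono : ∀ δ δ' : ℝ, δ ≤ δ' → PP δ → PP δ' := by
    rintro δ δ' h ⟨lam, hl, hP⟩
    refine ⟨lam, hl, fun n hn x => ?_⟩
    obtain ⟨I, hI, hno⟩ := hP n hn x
    refine ⟨I, hI, fun i hi j hj k hk h1 h2 h3 hbad => hno i hi j hj k hk h1 h2 h3 ?_⟩
    rcases hbad with ⟨a, b, c⟩ | ⟨a, b, c⟩ | ⟨a, b, c⟩
    · exact Or.inl ⟨a, b, by linarith⟩
    · exact Or.inr (Or.inl ⟨a, b, by linarith⟩)
    · exact Or.inr (Or.inr ⟨a, b, by linarith⟩)
  have hiff : ∀ δ : ℝ, 0 < δ → (PP δ ↔ 1 ≤ δ) := by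
    intro δ hδ
    constructor
    · intro h
      by_contra hcon
      push Not at hcon
      exact fails δ hδ hcon h
    · intro h
      exact hmono 1 δ h PP_one
  refine ⟨fails, PP_one, ?_, hiff⟩
  have hset : {δ : ℝ | 0 < δ ∧ ¬ PP δ} = Set.Ioo 0 1 := by
    ext δ
    rw [Set.mem_ofPred_eq, Set.mem_Ioo]
    constructor
    · rintro ⟨h1, h2⟩
      rw [hiff δ h1, not_le] at h2
      exact ⟨h1, h2⟩
    · rintro ⟨h1, h2⟩
      refine ⟨h1, ?_⟩
      rw [hiff δ h1, not_le]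
      exact h2
  rw [hset, csSup_Ioo (by norm_num)]

end Pool.Agent.Results.MP_8cfbc5_co.ThresholdOne
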